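import Mathlib
import Pool.Agent.H868Z.Diagram.Defs
import Pool.Agent.H868Z.Diagram.CdDefs
import Pool.Agent.H868Z.Diagram.Tree

/-!
# MP_07d80f_al: cohomological and algebraic dimension of diagram groups coincide

A nontrivial diagram group `D(P, w)` acts on the tree dual to the left hyperplanes (edges
`(a, u = v, b)` with `D(P, a)` trivial and `D(P, a u)` nontrivial). The vertex stabilisers embed in
groups `D(P, s)` with `w = q s` modulo `P` and `D(P, q)` nontrivial, so that `ℤ × D(P, s)` embeds in
`D(P, w)`; induction on the algebraic dimension gives `cd ≤ ad`.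
-/

namespace Pool.Agent.Results.MP_07d80f_al.CdEqAd

open Pool.Agent.H868Z.Diagram

universe u

/-- For every diagram group `G` (over an arbitrary semigroup presentation) and every nontrivial
commutative ring `k`, the cohomological dimension of `G` over `k` equals the algebraic dimension of
`G`. The case `k = ℤ` is the equality `cd(G) = ad(G)`. -/
theorem result (k : Type u) [CommRing k] [Nontrivial k] (G : Type u) [Group G] (A : Type u)
    (P : Pres A) (w : Word P) (h : Nonempty (G ≃* DiagramGroup P w)) : cd k G = ad G :=
  cd_eq_ad k G w h.some

example (G : Type) [Group G] (A : Type) (P : Pres A) (w : Word P)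
    (h : Nonempty (G ≃* DiagramGroup P w)) : cd ℤ G = ad G :=
  result ℤ G A P w h

end Pool.Agent.Results.MP_07d80f_al.CdEqAd
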